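import Pool.Agent.H97.PRP.Targets
import Pool.Agent.H97.PRK.VDL

/-!
# MP_e37c09_lc: one value if `V_ δ` is contained in HOD
-/

open Ordinal Cardinal Order Set
open scoped ZFSet

universe u

namespace Pool.Agent.H35.PRP

open _root_.HD HD.PRK HD.PRP Pool.Agent.H17.HD.XK

/-- an ordinal definable set with code `v i` as an argument -/
theorem dz_en {en : Ordinal.{u} → ZFSet.{u}} (hen : EN en) (i : ℕ)
    {R : ZFSet.{u} → (ℕ → ZFSet.{u}) → Prop} (hR : DZ fun v => R (v 0) (fun n => v (n + 1))) :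
    DZ.{u} fun v => (v i).IsOrdinal ∧ R (en (v i).rank) v := by
  refine (DZ.ex (R := fun W v => ((v i).IsOrdinal ∧ W = en (v i).rank) ∧ R W v) ?_).congr
    fun v => ?_
  · exact (hen.dz.ren fun n => if n = 0 then i + 1 else 0).and hR
  · constructor
    · rintro ⟨h1, h2⟩
      exact ⟨_, ⟨h1, rfl⟩, h2⟩
    · rintro ⟨W, ⟨h1, rfl⟩, h2⟩
      exact ⟨h1, h2⟩

/-- the least codes of the sets `Y` with `(w, Y) ∈ D`, where `w` is the set with code `cw` -/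
def Lc (en : Ordinal.{u} → ZFSet.{u}) (κ : Ordinal.{u}) (D : ZFSet.{u}) (cw : Ordinal.{u}) :
    Set Ordinal.{u} :=
  {c | ZFSet.pair (en cw) (en c) ∈ D ∧ en c ⊆ κ.toZFSet ∧ ∀ c' < c, en c' ≠ en c}

theorem lc_do {en : Ordinal.{u} → ZFSet.{u}} (hen : EN en) (κ : Ordinal.{u}) {D : ZFSet.{u}}
    (hD : OD D) : DO.{u} fun w => w 0 ∈ Lc en κ D (w 1) := by
  have h1 : DZ.{u} fun v => (v 1).IsOrdinal ∧ ((v 0).IsOrdinal ∧
      (ZFSet.pair (en (v 1).rank) (en (v 0).rank) ∈ D ∧ en (v 0).rank ⊆ κ.toZFSet ∧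
        ∀ c' ∈ v 0, ¬ (c'.IsOrdinal ∧ en (v 0).rank = en c'.rank))) := by
    refine DZ.od (R := fun D v => (v 1).IsOrdinal ∧ ((v 0).IsOrdinal ∧
      (ZFSet.pair (en (v 1).rank) (en (v 0).rank) ∈ D ∧ en (v 0).rank ⊆ κ.toZFSet ∧
        ∀ c' ∈ v 0, ¬ (c'.IsOrdinal ∧ en (v 0).rank = en c'.rank)))) hD ?_
    refine DZ.od (R := fun K v => (v 2).IsOrdinal ∧ ((v 1).IsOrdinal ∧
      (ZFSet.pair (en (v 2).rank) (en (v 1).rank) ∈ v 0 ∧ en (v 1).rank ⊆ K ∧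
        ∀ c' ∈ v 1, ¬ (c'.IsOrdinal ∧ en (v 1).rank = en c'.rank)))) (OD.ordinal κ) ?_
    refine dz_en hen (R := fun W v => (v 2).IsOrdinal ∧
      (ZFSet.pair W (en (v 2).rank) ∈ v 1 ∧ en (v 2).rank ⊆ v 0 ∧
        ∀ c' ∈ v 2, ¬ (c'.IsOrdinal ∧ en (v 2).rank = en c'.rank))) 3 ?_
    refine dz_en hen (R := fun Y v => ZFSet.pair (v 0) Y ∈ v 2 ∧ Y ⊆ v 1 ∧
        ∀ c' ∈ v 3, ¬ (c'.IsOrdinal ∧ Y = en c'.rank)) 3 ?_
    refine (loc_pmem 1 0 3).dz.and ((Loc.sub 0 2).dz.and ?_)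
    refine DZ.allMem (R := fun c' v => ¬ (c'.IsOrdinal ∧ v 0 = en c'.rank)) 4 ?_
    exact (hen.dz.ren fun n => n).not
  refine (DZ.do h1).congr fun w => ?_
  have e1 : ∀ i, (ov w i).rank = w i := fun i => rank_toZFSet _
  constructor
  · rintro ⟨h2, h3, h4⟩
    refine ⟨ZFSet.isOrdinal_toZFSet _, ZFSet.isOrdinal_toZFSet _, ?_, ?_, ?_⟩
    · rw [e1, e1]; exact h2
    · rw [e1]; exact h3
    · rintro c' hc' ⟨-, h5⟩
      obtain ⟨c, hc, rfl⟩ := mem_toZFSet_iff.1 hc'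
      rw [e1, rank_toZFSet] at h5
      exact h4 c hc h5.symm
  · rintro ⟨-, -, h2, h3, h4⟩
    rw [e1, e1] at h2
    rw [e1] at h3
    refine ⟨h2, h3, fun c' hc' h5 => ?_⟩
    refine h4 c'.toZFSet (toZFSet_mem_toZFSet_iff.2 hc') ⟨ZFSet.isOrdinal_toZFSet _, ?_⟩
    rw [e1, rank_toZFSet]
    exact h5.symm

theorem lc_few {en : Ordinal.{u} → ZFSet.{u}} {δ κ : Ordinal.{u}} {D : ZFSet.{u}}
    (hT : Thin δ D) (cw : Ordinal.{u}) : Few δ (Lc en κ D cw) := by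
  obtain ⟨ν, hν, e, he⟩ := hT (en cw)
  refine ⟨ν.ord, hν, fun i => sInf {c | en c = e i}, ?_⟩
  rintro c ⟨h1, -, h2⟩
  obtain ⟨i, hi, h3⟩ := he _ h1
  refine ⟨i, hi, ?_⟩
  apply le_antisymm
  · exact csInf_le' h3
  · refine le_csInf ⟨c, h3⟩ fun c' hc' => ?_
    by_contra hcon
    push Not at hcon
    exact h2 c' hcon (by rw [h3]; exact hc')

/-- `n` is the index of the last element of the set with code `cw` -/
def Jn (en : Ordinal.{u} → ZFSet.{u}) (cw n : Ordinal.{u}) : Prop :=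
  ∃ a, nth (E en cw) n a ∧ ∀ b, b ∈ E en cw → b ≤ a

theorem jn_do {en : Ordinal.{u} → ZFSet.{u}} (hen : EN en) :
    DO.{u} fun w => Jn en (w 0) (w 1) := by
  have h1 := (HD.All.ea en hen).1
  refine DO.ex (R := fun a w => nth (E en (w 0)) (w 1) a ∧ ∀ b, b ∈ E en (w 0) → b ≤ a) ?_
  refine DO.and ?_ ?_
  · have h2 := HD.All.db (fun i w => i ∈ E en (w 0)) (h1.ren fun n => n)
    -- variables: index, value, code
    exact h2.ren fun n => if n = 0 then 2 else if n = 1 then 0 else 1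
  · refine DO.all (R := fun b w => b ∈ E en (w 1) → b ≤ w 0) ?_
    exact (DO.s2 (X := fun a c => a ∈ E en c) h1 0 2).imp (DO.le 0 1)

theorem jn_uniq {en : Ordinal.{u} → ZFSet.{u}} {cw cw' n n' : Ordinal.{u}} (he : en cw = en cw')
    (h : Jn en cw n) (h' : Jn en cw' n') : n = n' := by
  obtain ⟨a, h1, h2⟩ := h
  obtain ⟨a', h3, h4⟩ := h'
  have e : E en cw = E en cw' := by
    unfold E
    rw [he]
  rw [← e] at h3 h4
  have e2 : a = a' := le_antisymm (h4 _ h1.1) (h2 _ h3.1)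
  subst e2
  have h5 := (HD.All.vh (E en cw)).2.1
  rcases lt_trichotomy n n' with h | h | h
  · exact absurd ((h5 _ _ _ _ h1 h3).1 h) (lt_irrefl _)
  · exact h
  · exact absurd ((h5 _ _ _ _ h3 h1).1 h) (lt_irrefl _)

theorem idx_uniq {S : Set Ordinal.{u}} {n n' a : Ordinal.{u}} (h1 : nth S n a)
    (h3 : nth S n' a) : n = n' := by
  have h5 := (HD.All.vh S).2.1
  rcases lt_trichotomy n n' with h | h | h
  · exact absurd ((h5 _ _ _ _ h1 h3).1 h) (lt_irrefl _)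
  · exact h
  · exact absurd ((h5 _ _ _ _ h3 h1).1 h) (lt_irrefl _)

theorem nth_fin {S : Set Ordinal.{u}} {n a : Ordinal.{u}} (h : nth S n a)
    (hfin : {b | b ∈ S ∧ b < a}.Finite) : n < ω := by
  obtain ⟨-, g, h1, h2, -⟩ := h
  by_contra hcon
  push Not at hcon
  refine hfin.not_infinite ?_
  have hinj : Function.Injective fun k : ℕ => g k := by
    intro k l hkl
    have hkl : g k = g l := hkl
    rcases lt_trichotomy k l with h | h | h
    · have := h1 k l (by exact_mod_cast h) ((nat_lt_omega0 l).trans_le hcon)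
      rw [hkl] at this
      exact absurd this (lt_irrefl _)
    · exact h
    · have := h1 l k (by exact_mod_cast h) ((nat_lt_omega0 k).trans_le hcon)
      rw [hkl] at this
      exact absurd this (lt_irrefl _)
  refine (Set.infinite_range_of_injective hinj).mono ?_
  rintro _ ⟨k, rfl⟩
  exact h2 k ((nat_lt_omega0 k).trans_le hcon)

/-- the index in `x` of `a`, and the index of the code of `X ∩ a` -/
def Rn (en : Ordinal.{u} → ZFSet.{u}) (κ : Ordinal.{u}) (D x X : ZFSet.{u})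
    (n i : Ordinal.{u}) : Prop :=
  ∃ a : Ordinal.{u}, nth {b | b.toZFSet ∈ x} n a ∧
    {b : Ordinal.{u} | b.toZFSet ∈ x ∧ b < a}.Finite ∧ ∃ cw c : Ordinal.{u},
      en cw = x ∩ (succ a).toZFSet ∧ en c = X ∩ a.toZFSet ∧ nth (Lc en κ D cw) i c

theorem rn_uniq {en : Ordinal.{u} → ZFSet.{u}} {κ : Ordinal.{u}} {D x X : ZFSet.{u}}
    {n i i' : Ordinal.{u}} (h : Rn en κ D x X n i) (h' : Rn en κ D x X n i') : i = i' := by
  obtain ⟨a, h1, -, cw, c, h2, h3, h4⟩ := h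
  obtain ⟨a', h1', -, cw', c', h2', h3', h4'⟩ := h'
  obtain rfl := nth_uniq HD.All.vh h1 h1'
  have e1 : en cw = en cw' := by rw [h2, h2']
  have e2 : Lc en κ D cw = Lc en κ D cw' := by
    unfold Lc
    rw [e1]
  have e3 : en c = en c' := by rw [h3, h3']
  have e4 : c = c' := by
    rcases lt_trichotomy c c' with h | h | h
    · exact absurd e3 (h4'.1.2.2 c h)
    · exact h
    · exact absurd e3.symm (h4.1.2.2 c' h)
  subst e4
  rw [← e2] at h4'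
  exact idx_uniq h4 h4'

theorem rn_bdd {en : Ordinal.{u} → ZFSet.{u}} {C : Cardinal.{u}} (hC : C.IsRegular)
    (hC0 : ℵ₀ < C) {κ : Ordinal.{u}} {D x X : ZFSet.{u}} (hT : Thin C.ord D) :
    ∃ τ < C.ord, ∀ n i, Rn en κ D x X n i → n < ω ∧ i < τ := by
  have h1 : ∀ n i, Rn en κ D x X n i → n < ω ∧ i < C.ord := by
    rintro n i ⟨a, h1, h2, cw, c, h3, h4, h5⟩
    refine ⟨nth_fin h1 h2, ?_⟩
    obtain ⟨τ, hτ, -, h6⟩ := idx HD.All.vh (lc_few (en := en) (κ := κ) hT cw)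
    exact (h6 _ _ h5).trans hτ
  classical
  have h2 : ∀ n : ℕ, ∃ j < C.ord, ∀ i, Rn en κ D x X n i → i < j := by
    intro n
    by_cases h : ∃ i, Rn en κ D x X n i
    · obtain ⟨i, hi⟩ := h
      refine ⟨succ i, (Cardinal.isSuccLimit_ord hC0.le).succ_lt (h1 _ _ hi).2, fun i' hi' => ?_⟩
      rw [rn_uniq hi' hi]
      exact lt_succ i
    · push Not at h
      exact ⟨0, Cardinal.ord_pos.2 (Cardinal.aleph0_pos.trans hC0), fun i hi => absurd hi (h i)⟩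
  choose f hf hf' using h2
  refine ⟨⨆ n, f n, ?_, ?_⟩
  · exact Cardinal.iSup_lt_ord_lift_of_isRegular hC (by simpa using hC0) hf
  · intro n i h
    obtain ⟨h3, -⟩ := h1 n i h
    refine ⟨h3, ?_⟩
    obtain ⟨k, rfl⟩ := lt_omega0.1 h3
    exact (hf' k i h).trans_le (Ordinal.le_iSup f k)

/-- the pair of the codes is in the capturing function -/
def Pe (en : Ordinal.{u} → ZFSet.{u}) (κ : Ordinal.{u}) (D B : ZFSet.{u})
    (cw c : Ordinal.{u}) : Prop :=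
  ∃ n i : Ordinal.{u}, Jn en cw n ∧ ZFSet.pair n.toZFSet i.toZFSet ∈ B ∧ nth (Lc en κ D cw) i c

theorem pe_do {en : Ordinal.{u} → ZFSet.{u}} (hen : EN en) (κ : Ordinal.{u})
    {D B : ZFSet.{u}} (hD : OD D) (hB : OD B) : DO.{u} fun w => Pe en κ D B (w 0) (w 1) := by
  refine DO.ex (R := fun n w => ∃ i : Ordinal.{u}, Jn en (w 0) n ∧
    ZFSet.pair n.toZFSet i.toZFSet ∈ B ∧ nth (Lc en κ D (w 0)) i (w 1)) ?_
  refine DO.ex (R := fun i w => Jn en (w 1) (w 0) ∧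
    ZFSet.pair (w 0).toZFSet i.toZFSet ∈ B ∧ nth (Lc en κ D (w 1)) i (w 2)) ?_
  refine DO.and ?_ (DO.and ?_ ?_)
  · exact DO.s2 (X := fun a b => Jn en a b) (jn_do hen) 2 1
  · exact DO.s2 (X := fun a b => ZFSet.pair a.toZFSet b.toZFSet ∈ B) hB.dr 1 0
  · have h2 := HD.All.db (fun i w => i ∈ Lc en κ D (w 0)) ((lc_do hen κ hD).ren fun n => n)
    exact h2.ren fun n => if n = 0 then 0 else if n = 1 then 3 else 2

/-- the capturing function -/
noncomputable def Ec (en : Ordinal.{u} → ZFSet.{u}) (κ : Ordinal.{u}) (D B : ZFSet.{u}) :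
    ZFSet.{u} :=
  ZFSet.sep (fun z => ∃ cw c : Ordinal.{u}, z = ZFSet.pair (en cw) (en c) ∧ Pe en κ D B cw c)
    (ZFSet.prod (ZFSet.powerset κ.toZFSet) (ZFSet.powerset κ.toZFSet))

theorem ec_od {en : Ordinal.{u} → ZFSet.{u}} (hen : EN en) (κ : Ordinal.{u})
    {D B : ZFSet.{u}} (hD : OD D) (hB : OD B) : OD (Ec en κ D B) := by
  obtain ⟨Q, hQ, hQ'⟩ := pe_do hen κ hD hB
  refine OD.of_mem (P := fun v => ∃ cw, cw.IsOrdinal ∧ ∃ c, c.IsOrdinal ∧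
    (v 0 = ZFSet.pair (en cw.rank) (en c.rank) ∧ en cw.rank ⊆ κ.toZFSet ∧
      en c.rank ⊆ κ.toZFSet ∧ Q (fun n => if n = 0 then cw else c))) ?_ fun v => ?_
  · refine DZ.od (R := fun K v => ∃ cw, cw.IsOrdinal ∧ ∃ c, c.IsOrdinal ∧
      (v 0 = ZFSet.pair (en cw.rank) (en c.rank) ∧ en cw.rank ⊆ K ∧
        en c.rank ⊆ K ∧ Q (fun n => if n = 0 then cw else c))) (OD.ordinal κ) ?_
    refine DZ.ex (R := fun cw v => cw.IsOrdinal ∧ ∃ c, c.IsOrdinal ∧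
      (v 1 = ZFSet.pair (en cw.rank) (en c.rank) ∧ en cw.rank ⊆ v 0 ∧
        en c.rank ⊆ v 0 ∧ Q (fun n => if n = 0 then cw else c))) ?_
    refine dz_en hen (R := fun W v => ∃ c, c.IsOrdinal ∧
      (v 2 = ZFSet.pair W (en c.rank) ∧ W ⊆ v 1 ∧
        en c.rank ⊆ v 1 ∧ Q (fun n => if n = 0 then v 0 else c))) 0 ?_
    refine DZ.ex (R := fun c v => c.IsOrdinal ∧
      (v 3 = ZFSet.pair (v 0) (en c.rank) ∧ v 0 ⊆ v 2 ∧
        en c.rank ⊆ v 2 ∧ Q (fun n => if n = 0 then v 1 else c))) ?_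
    refine dz_en hen (R := fun Y v => v 4 = ZFSet.pair (v 1) Y ∧ v 1 ⊆ v 3 ∧
        Y ⊆ v 3 ∧ Q (fun n => if n = 0 then v 2 else v 0)) 0 ?_
    refine (loc_pair 5 2 0).dz.and ((Loc.sub 2 4).dz.and ((Loc.sub 0 4).dz.and ?_))
    refine (hQ.ren fun n => if n = 0 then 3 else 1).congr fun v => ?_
    have e : (fun n => if n = 0 then v (2 + 1) else v (0 + 1)) =
        fun n => v (if n = 0 then 3 else 1) := by
      funext n
      split_ifs <;> rfl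
    show Q (fun n => if n = 0 then v (2 + 1) else v (0 + 1)) ↔ _
    rw [e]
  · have hq : ∀ a b : Ordinal.{u}, Q (fun n => if n = 0 then a.toZFSet else b.toZFSet) ↔
        Pe en κ D B a b := by
      intro a b
      have h3 := hQ' (fun n => if n = 0 then a else b)
      have e : ov (fun n => if n = 0 then a else b) =
          fun n => if n = 0 then a.toZFSet else b.toZFSet := by
        funext n
        show (if n = 0 then a else b).toZFSet = _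
        split_ifs <;> rfl
      rw [e] at h3
      exact h3.symm
    unfold Ec
    rw [ZFSet.mem_sep]
    constructor
    · rintro ⟨cw, h1, c, h2, h3, h4, h5, h6⟩
      obtain ⟨a, rfl⟩ := ord_of h1
      obtain ⟨b, rfl⟩ := ord_of h2
      rw [rank_toZFSet] at h3 h4
      rw [rank_toZFSet] at h3 h5
      refine ⟨?_, a, b, h3, (hq a b).1 h6⟩
      rw [h3, ZFSet.pair_mem_prod, ZFSet.mem_powerset, ZFSet.mem_powerset]
      exact ⟨h4, h5⟩
    · rintro ⟨h1, a, b, h2, h3⟩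
      rw [h2, ZFSet.pair_mem_prod, ZFSet.mem_powerset, ZFSet.mem_powerset] at h1
      refine ⟨a.toZFSet, ZFSet.isOrdinal_toZFSet a, b.toZFSet, ZFSet.isOrdinal_toZFSet b, ?_⟩
      rw [rank_toZFSet, rank_toZFSet]
      exact ⟨h2, h1.1, h1.2, (hq a b).2 h3⟩

theorem ec_hod {en : Ordinal.{u} → ZFSet.{u}} (hen : EN en) (κ : Ordinal.{u})
    {D B : ZFSet.{u}} (hD : OD D) (hB : OD B) : HOD (Ec en κ D B) := by
  refine hod_iff.2 ⟨ec_od hen κ hD hB, fun z hz => ?_⟩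
  unfold Ec at hz
  rw [ZFSet.mem_sep] at hz
  obtain ⟨h1, a, b, rfl, -⟩ := hz
  rw [ZFSet.pair_mem_prod, ZFSet.mem_powerset, ZFSet.mem_powerset] at h1
  exact (HOD.of_sub ((hen.od _).2 ⟨a, rfl⟩) h1.1).pair (HOD.of_sub ((hen.od _).2 ⟨b, rfl⟩) h1.2)

theorem ec_fun {en : Ordinal.{u} → ZFSet.{u}} {κ : Ordinal.{u}} {D B : ZFSet.{u}}
    (hB : ∀ n i i' : Ordinal.{u}, ZFSet.pair n.toZFSet i.toZFSet ∈ B →
      ZFSet.pair n.toZFSet i'.toZFSet ∈ B → i = i') : HD.PRP.Fun (Ec en κ D B) := by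
  intro w Y Y' h h'
  unfold Ec at h h'
  rw [ZFSet.mem_sep] at h h'
  obtain ⟨-, cw, c, h1, n, i, h2, h3, h4⟩ := h
  obtain ⟨-, cw', c', h1', n', i', h2', h3', h4'⟩ := h'
  obtain ⟨e1, e2⟩ := ZFSet.pair_injective h1
  obtain ⟨e3, e4⟩ := ZFSet.pair_injective h1'
  have e5 : en cw = en cw' := by rw [← e1, ← e3]
  obtain rfl := jn_uniq e5 h2 h2'
  obtain rfl := hB n i i' h3 h3'
  have e6 : Lc en κ D cw = Lc en κ D cw' := by
    unfold Lc
    rw [e5]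
  rw [← e6] at h4'
  rw [e2, e4, nth_uniq HD.All.vh h4 h4']

/-- CPH. One value if `V_ δ` is contained in HOD. -/
theorem pf_CPH (h0 : T_FO.{u}) : T_CPH.{u} := by
  intro δ hδ hV κ x X D hx hD hT hC
  obtain ⟨C, rfl, hCr, -, hC0⟩ : ∃ C : Cardinal.{u}, δ = C.ord ∧ C.IsRegular ∧
      C.IsStrongLimit ∧ ℵ₀ < C := by
    obtain ⟨η, -, θ, j, h⟩ := HD.All.xa δ hδ 0
    exact HD.All.xb δ η θ j h
  obtain ⟨en, hen⟩ := HD.All.en.{u}
  obtain ⟨τ, hτ, hb⟩ := rn_bdd (en := en) hCr hC0 (κ := κ) (x := x) (X := X) hT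
  have hgd : Gd C.ord := ⟨Cardinal.isSuccLimit_ord hC0.le, by
    rw [← Cardinal.ord_aleph0]
    exact Cardinal.ord_lt_ord.2 hC0⟩
  have hBH : HOD (rs ω τ (Rn en κ D x X)) := by
    refine hV _ (mem_V_of_sub (y := ZFSet.prod (ω : Ordinal.{u}).toZFSet τ.toZFSet)
      (fun z hz => (ZFSet.mem_sep.1 hz).1) (hgd.prod (Gd.ord.2 hgd.2) (Gd.ord.2 hτ)))
  refine ⟨Ec en κ D (rs ω τ (Rn en κ D x X)), ec_hod hen κ hD hBH.od,
    ec_fun fun n i i' h h' => ?_, fun a ha hfin => ?_⟩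
  · rw [pair_mem_rs] at h h'
    exact rn_uniq h.2.2 h'.2.2
  · -- the pair
    have h1 := hC a ha hfin
    have hwf : {b : Ordinal.{u} | b.toZFSet ∈ x ∩ (succ a).toZFSet}.Finite := by
      refine (hfin.insert a).subset fun b hb => ?_
      have hb' : b.toZFSet ∈ x ∩ (succ a).toZFSet := hb
      rw [ZFSet.mem_inter, toZFSet_mem_toZFSet_iff, Order.lt_succ_iff] at hb'
      rcases hb'.2.eq_or_lt with h | h
      · exact Or.inl h
      · exact Or.inr ⟨hb'.1, h⟩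
    have hwO : OD (x ∩ (succ a).toZFSet) :=
      h0 (succ a) _ (fun z hz => (ZFSet.mem_inter.1 hz).2) hwf
    have haκ : a < κ := toZFSet_mem_toZFSet_iff.1 (hx ha)
    -- the value
    have hYO : OD (X ∩ a.toZFSet) := by
      obtain ⟨ν, hν, e, he⟩ := hT (x ∩ (succ a).toZFSet)
      have hZ : OD (ZFSet.sep (fun Y => ZFSet.pair (x ∩ (succ a).toZFSet) Y ∈ D)
          (ZFSet.powerset a.toZFSet)) := by
        refine OD.of_mem (P := fun v => ZFSet.pair (x ∩ (succ a).toZFSet) (v 0) ∈ D ∧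
          v 0 ⊆ a.toZFSet) ?_ fun v => ?_
        · refine DZ.od (R := fun w v => ZFSet.pair w (v 0) ∈ D ∧ v 0 ⊆ a.toZFSet) hwO ?_
          refine DZ.od (R := fun D v => ZFSet.pair (v 0) (v 1) ∈ D ∧ v 1 ⊆ a.toZFSet) hD ?_
          refine DZ.od (R := fun A v => ZFSet.pair (v 1) (v 2) ∈ v 0 ∧ v 2 ⊆ A)
            (OD.ordinal a) ?_
          exact (loc_pmem 2 3 1).dz.and (Loc.sub 3 0).dz
        · rw [ZFSet.mem_sep, ZFSet.mem_powerset]
          exact and_comm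
      refine (Pool.Agent.H97.PRK.vdl hC0.le (Cardinal.ord_lt_ord.1 hν) hV (a := a) hZ
        ⟨e, fun Y hY => ?_⟩ (B := X ∩ a.toZFSet) ?_ fun z hz => (ZFSet.mem_inter.1 hz).2).od
      · obtain ⟨i, hi, hi'⟩ := he Y (ZFSet.mem_sep.1 hY).2
        exact ⟨i, hi, hi'⟩
      · rw [ZFSet.mem_sep, ZFSet.mem_powerset]
        exact ⟨fun z hz => (ZFSet.mem_inter.1 hz).2, h1⟩
    obtain ⟨cw, hcw⟩ := (hen.od _).1 hwO
    obtain ⟨c, hc, hcl⟩ := Lst.exist (Q := fun _ d => en d = X ∩ a.toZFSet) (c := 0)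
      ((hen.od _).1 hYO)
    have hYκ : X ∩ a.toZFSet ⊆ κ.toZFSet := by
      intro z hz
      obtain ⟨b, hb, rfl⟩ := mem_toZFSet_iff.1 (ZFSet.mem_inter.1 hz).2
      exact toZFSet_mem_toZFSet_iff.2 (hb.trans haκ)
    have hcL : c ∈ Lc en κ D cw := by
      refine ⟨?_, ?_, fun c' hc' => ?_⟩
      · rw [hcw, hc]; exact h1
      · rw [hc]; exact hYκ
      · rw [hc]; exact hcl c' hc'
    obtain ⟨i, -, hi⟩ := (HD.All.vh (Lc en κ D cw)).1 c hcL
    obtain ⟨n, -, hn⟩ := (HD.All.vh {b : Ordinal.{u} | b.toZFSet ∈ x}).1 a ha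
    have hR : Rn en κ D x X n i := ⟨a, hn, hfin, cw, c, hcw, hc, hi⟩
    unfold Ec
    rw [ZFSet.mem_sep, ZFSet.pair_mem_prod, ZFSet.mem_powerset, ZFSet.mem_powerset]
    refine ⟨⟨fun z hz => hx (ZFSet.mem_inter.1 hz).1, hYκ⟩, cw, c, by rw [hcw, hc], n, i, ?_,
      pair_mem_rs.2 ⟨(hb _ _ hR).1, (hb _ _ hR).2, hR⟩, hi⟩
    obtain ⟨-, g, h2, h3, h4⟩ := hn
    have hE : ∀ b, b ∈ E en cw ↔ b.toZFSet ∈ x ∧ b ≤ a := by
      intro b
      show b.toZFSet ∈ en cw ↔ _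
      rw [hcw, ZFSet.mem_inter, toZFSet_mem_toZFSet_iff, Order.lt_succ_iff]
    refine ⟨a, ⟨(hE a).2 ⟨ha, le_rfl⟩, g, h2, fun y hy => ?_, fun y hy hya => ?_⟩,
      fun b hb => ((hE b).1 hb).2⟩
    · exact ⟨(hE _).2 ⟨(h3 y hy).1, (h3 y hy).2.le⟩, (h3 y hy).2⟩
    · exact h4 y ((hE y).1 hy).1 hya

end Pool.Agent.H35.PRP
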